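import Pool.Agent.LPC.Stmts

/-!
# Squad LPC, row DEN

Problem MP_37fa12_co.  The density of the balls from the density of the points.
-/

set_option autoImplicit false

noncomputable section

open MeasureTheory Filter Topology

namespace Pool.Agent.LPC.H26

open Pool.Agent.LPC

theorem vol_ball (n : ℕ) {R : ℝ} (hR : 0 ≤ R) (hn : 1 ≤ n) :
    volume (Metric.ball (0 : V n) R) = ENNReal.ofReal (R ^ n) * volume (Metric.ball (0 : V n) 1) := by
  have : Nonempty (Fin n) := ⟨⟨0, hn⟩⟩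
  rw [Measure.addHaar_ball volume (0 : V n) hR, finrank_euclideanSpace_fin]

theorem vb_eq (n : ℕ) {R : ℝ} (hR : 0 ≤ R) (hn : 1 ≤ n) : vb n R = R ^ n * vb n 1 := by
  unfold vb
  rw [vol_ball n hR hn, ENNReal.toReal_mul, ENNReal.toReal_ofReal (by positivity)]

theorem cover (hFIN : Fin0Stmt) {n : ℕ} {L : AddSubgroup (V n)} (hM : Mn 4 L) (R : ℝ) :
    volume ((⋃ x ∈ (L : Set (V n)), Metric.ball x 1) ∩ Metric.ball (0 : V n) R) ≤
      (cnt L (R + 1) : ENNReal) * volume (Metric.ball (0 : V n) 1) := by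
  have hfin := hFIN n 4 L (by norm_num) hM (R + 1)
  have hsub : (⋃ x ∈ (L : Set (V n)), Metric.ball x 1) ∩ Metric.ball (0 : V n) R ⊆
      ⋃ x ∈ hfin.toFinset, Metric.ball x 1 := by
    rintro y ⟨hy, hyR⟩
    rw [Set.mem_iUnion₂] at hy
    obtain ⟨x, hx, hyx⟩ := hy
    rw [Set.mem_iUnion₂]
    refine ⟨x, ?_, hyx⟩
    rw [Set.Finite.mem_toFinset]
    refine ⟨hx, ?_⟩
    rw [Metric.mem_ball] at hyx hyR ⊢
    have h1 : dist x 0 ≤ dist x y + dist y 0 := dist_triangle _ _ _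
    rw [dist_comm x y] at h1
    linarith
  refine le_trans (measure_mono hsub) (le_trans (measure_biUnion_finset_le _ _) ?_)
  have hcard : cnt L (R + 1) = hfin.toFinset.card := by
    unfold cnt
    exact Set.ncard_eq_toFinset_card _ hfin
  rw [hcard, Finset.sum_congr rfl fun x _ => Measure.addHaar_ball_center volume x 1,
    Finset.sum_const, nsmul_eq_mul]

theorem den (hFIN : Fin0Stmt) : DenStmt := by
  intro n κ L hn hκ hM hD
  have hv1 : volume (Metric.ball (0 : V n) 1) ≠ 0 :=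
    (Metric.measure_ball_pos volume (0 : V n) one_pos).ne'
  have hv2 : volume (Metric.ball (0 : V n) 1) ≠ ⊤ := measure_ball_lt_top.ne
  have hb : 0 < vb n 1 := ENNReal.toReal_pos hv1 hv2
  refine ENNReal.le_of_forall_pos_le_add fun δ hδ _ => ?_
  have hδ' : (0 : ℝ) < δ := by exact_mod_cast hδ
  have hadd : ENNReal.ofReal (κ * vb n 1) + (δ : ENNReal) =
      ENNReal.ofReal (κ * vb n 1 + δ) := by
    rw [ENNReal.ofReal_add (by positivity) hδ'.le, ENNReal.ofReal_coe_nnreal]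
  rw [hadd]
  refine limsup_le_of_le (by isBoundedDefault) ?_
  have hε : 0 < (δ : ℝ) / (2 * vb n 1) := by positivity
  have h1 : ∀ᶠ R : ℝ in atTop, (cnt L (R + 1) : ℝ) ≤
      (κ + (δ : ℝ) / (2 * vb n 1)) * vb n (R + 1) :=
    (tendsto_atTop_add_const_right atTop (1 : ℝ) tendsto_id).eventually (hD _ hε)
  have h2 : Tendsto (fun R : ℝ => (κ + (δ : ℝ) / (2 * vb n 1)) * (1 + R⁻¹) ^ n * vb n 1) atTop
      (𝓝 ((κ + (δ : ℝ) / (2 * vb n 1)) * (1 + 0) ^ n * vb n 1)) :=
    (((tendsto_inv_atTop_zero.const_add 1).pow n).const_mul _).mul_const _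
  have h3 : (κ + (δ : ℝ) / (2 * vb n 1)) * (1 + 0) ^ n * vb n 1 < κ * vb n 1 + δ := by
    have : (κ + (δ : ℝ) / (2 * vb n 1)) * (1 + 0) ^ n * vb n 1 = κ * vb n 1 + δ / 2 := by
      rw [add_zero, one_pow, mul_one, add_mul]
      field_simp
    rw [this]
    linarith
  filter_upwards [h1, h2.eventually (gt_mem_nhds h3), eventually_gt_atTop (0 : ℝ)] with R hR1 hR2 hR0
  have hRn : 0 < R ^ n := pow_pos hR0 n
  have h4 : volume ((⋃ x ∈ (L : Set (V n)), Metric.ball x 1) ∩ Metric.ball (0 : V n) R) /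
      volume (Metric.ball (0 : V n) R) ≤
      (cnt L (R + 1) : ENNReal) * volume (Metric.ball (0 : V n) 1) /
        (ENNReal.ofReal (R ^ n) * volume (Metric.ball (0 : V n) 1)) := by
    rw [vol_ball n hR0.le hn]
    exact ENNReal.div_le_div_right (cover hFIN hM R) _
  refine le_trans h4 ?_
  rw [ENNReal.mul_div_mul_right _ _ hv1 hv2, ← ENNReal.ofReal_natCast,
    ← ENNReal.ofReal_div_of_pos hRn]
  refine ENNReal.ofReal_le_ofReal ?_
  refine le_trans ?_ hR2.le
  rw [div_le_iff₀ hRn]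
  refine le_trans hR1 (le_of_eq ?_)
  rw [vb_eq n (R := R + 1) (by linarith) hn]
  have h5 : (R + 1) ^ n = (1 + R⁻¹) ^ n * R ^ n := by
    rw [← mul_pow]
    congr 1
    field_simp
  rw [h5]
  ring

end Pool.Agent.LPC.H26
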